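import Pool.Agent.N879.GD.Stm

/-!
Project GD, piece SUM, part 1 (helper3): symmetry and dyadic blocks.
-/

set_option autoImplicit false

namespace Pool.Agent.Helper3K.GDS

open Complex Finset MeasureTheory
open Pool.Agent.N879.GD
open Pool.Agent.Y969.GP (PS)

lemma GG_conj (b : ℕ) (T x ω : ℝ) : (starRingEnd ℂ) (GG b T x ω) = GG b T (-x) (-ω) := by
  unfold GG
  rw [← integral_conj]
  congr 1
  funext u
  rw [map_mul, Complex.conj_ofReal, ← Complex.exp_conj, map_mul, Complex.conj_I, Complex.conj_ofReal]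
  congr 2
  push_cast
  ring

lemma bt_conj (σ : ℝ) (b : ℕ) (T y ω : ℝ) (m n : ℕ) :
    (starRingEnd ℂ) (bt σ b T y ω m n) = bt σ b T (-y) (-ω) n m := by
  unfold bt
  rw [map_mul, map_mul, Complex.conj_ofReal, ← Complex.exp_conj, GG_conj, mul_comm (n : ℝ) (m : ℝ)]
  congr 2
  · congr 1
    rw [map_neg, map_mul, Complex.conj_ofReal, map_add, map_mul, Complex.conj_I,
      Complex.conj_ofReal, Complex.conj_ofReal]
    congr 2
    push_cast
    ring
  · ring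

lemma dyadic (f : ℕ → ℂ) (B : ℕ → ℝ) (D : ℕ)
    (hB : ∀ i L : ℕ, 2 ^ i ≤ D → L ≤ 2 ^ i → ‖∑ r ∈ range L, f (2 ^ i + r)‖ ≤ B i) :
    ‖∑ d ∈ Icc 1 D, f d‖ ≤ ∑ i ∈ (range (D + 1)).filter (fun i => 2 ^ i ≤ D), B i := by
  classical
  have hmaps : ∀ d ∈ Icc 1 D, Nat.log 2 d ∈ (range (D + 1)).filter (fun i => 2 ^ i ≤ D) := by
    intro d hd
    rw [mem_Icc] at hd
    rw [mem_filter, mem_range]
    have h1 : 2 ^ Nat.log 2 d ≤ d := Nat.pow_log_le_self 2 (by omega)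
    have h2 : Nat.log 2 d < 2 ^ Nat.log 2 d := Nat.lt_pow_self (by norm_num)
    constructor <;> omega
  rw [← Finset.sum_fiberwise_of_maps_to hmaps]
  refine (norm_sum_le _ _).trans (Finset.sum_le_sum fun i hi => ?_)
  rw [mem_filter] at hi
  have hfib : (Icc 1 D).filter (fun d => Nat.log 2 d = i) =
      Finset.Ico (2 ^ i) (min (2 ^ (i + 1)) (D + 1)) := by
    ext d
    simp only [mem_filter, mem_Icc, mem_Ico, lt_min_iff]
    constructor
    · rintro ⟨⟨h1, h2⟩, h3⟩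
      have := (Nat.log_eq_iff (b := 2) (m := i) (n := d) (Or.inr ⟨by norm_num, by omega⟩)).1 h3
      exact ⟨this.1, this.2, by omega⟩
    · rintro ⟨h1, h2, h3⟩
      have hp : 0 < 2 ^ i := by positivity
      refine ⟨⟨by omega, by omega⟩, ?_⟩
      exact (Nat.log_eq_iff (Or.inr ⟨by norm_num, by omega⟩)).2 ⟨h1, h2⟩
  rw [hfib, Finset.sum_Ico_eq_sum_range]
  apply hB i _ hi.2
  have h1 : 2 ^ (i + 1) = 2 ^ i + 2 ^ i := by ring
  have h2 : 0 < 2 ^ i := by positivity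
  have h3 : min (2 ^ (i + 1)) (D + 1) ≤ 2 ^ (i + 1) := min_le_left _ _
  omega

lemma upper (f : ℕ → ℕ → ℂ) (B : ℕ → ℕ → ℝ) (X : ℕ)
    (hB : ∀ m i L : ℕ, 1 ≤ m → m * (m + 2 ^ i) ≤ X → L ≤ 2 ^ i →
      ‖∑ r ∈ range L, f m (m + 2 ^ i + r)‖ ≤ B m i) (hB0 : ∀ m i, 0 ≤ B m i) :
    ‖∑ p ∈ (PS X).filter (fun p => p.1 < p.2), f p.1 p.2‖ ≤
      ∑ m ∈ Icc 1 X, ∑ i ∈ (range (X + 1)).filter (fun i => m * (m + 2 ^ i) ≤ X), B m i := by
  classical
  have h1 : ∑ p ∈ (PS X).filter (fun p => p.1 < p.2), f p.1 p.2 =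
      ∑ m ∈ Icc 1 X, ∑ d ∈ Icc 1 (X / m - m), f m (m + d) := by
    rw [Finset.sum_sigma']
    refine Finset.sum_bij' (fun p _ => (⟨p.1, p.2 - p.1⟩ : (_ : ℕ) × ℕ))
      (fun q _ => (q.1, q.1 + q.2)) ?_ ?_ ?_ ?_ ?_
    · intro p hp
      simp only [PS, mem_filter, mem_product, mem_Icc] at hp
      obtain ⟨⟨⟨⟨h1, h2⟩, h3, h4⟩, h5⟩, h6⟩ := hp
      simp only [mem_sigma, mem_Icc]
      refine ⟨⟨h1, h2⟩, by omega, ?_⟩
      have : p.2 ≤ X / p.1 := by
        rw [Nat.le_div_iff_mul_le (by omega)]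
        rw [mul_comm]
        exact h5
      omega
    · intro q hq
      simp only [mem_sigma, mem_Icc] at hq
      obtain ⟨⟨h1, h2⟩, h3, h4⟩ := hq
      have h5 : q.1 + q.2 ≤ X / q.1 := by omega
      have h6 : (q.1 + q.2) * q.1 ≤ X := by
        rwa [Nat.le_div_iff_mul_le (by omega)] at h5
      simp only [PS, mem_filter, mem_product, mem_Icc]
      have h7 : X / q.1 ≤ X := Nat.div_le_self _ _
      refine ⟨⟨⟨⟨h1, h2⟩, by omega, by omega⟩, ?_⟩, by omega⟩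
      rw [mul_comm]
      exact h6
    · intro p hp
      simp only [PS, mem_filter, mem_product, mem_Icc] at hp
      ext
      · rfl
      · simp only
        omega
    · intro q hq
      simp only [Sigma.mk.injEq]
      ext
      · rfl
      · simp
    · intro p hp
      simp only [PS, mem_filter, mem_product, mem_Icc] at hp
      have : p.1 + (p.2 - p.1) = p.2 := by omega
      simp only [this]
  rw [h1]
  refine (norm_sum_le _ _).trans (Finset.sum_le_sum fun m hm => ?_)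
  rw [mem_Icc] at hm
  have h2 := dyadic (fun d => f m (m + d)) (B m) (X / m - m) (fun i L hi hL => ?_)
  · refine h2.trans ?_
    refine Finset.sum_le_sum_of_subset_of_nonneg ?_ (fun i _ _ => hB0 m i)
    intro i hi
    rw [mem_filter, mem_range] at hi ⊢
    have hp : 0 < 2 ^ i := by positivity
    have h3 : X / m ≤ X := Nat.div_le_self _ _
    have h5 : m + 2 ^ i ≤ X / m := by omega
    have h6 : (m + 2 ^ i) * m ≤ X := by
      rwa [Nat.le_div_iff_mul_le (by omega)] at h5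
    refine ⟨by omega, ?_⟩
    rw [mul_comm]
    exact h6
  · have hp : 0 < 2 ^ i := by positivity
    have h5 : m + 2 ^ i ≤ X / m := by omega
    have h6 : (m + 2 ^ i) * m ≤ X := by
      rwa [Nat.le_div_iff_mul_le (by omega)] at h5
    have := hB m i L hm.1 (by rw [mul_comm]; exact h6) hL
    simpa [add_assoc] using this

/-- the reduction of SUM to blocks -/
theorem red (σ : ℝ) (b : ℕ) (T y ω : ℝ) (X : ℕ) (B : ℕ → ℕ → ℝ) (hB0 : ∀ m i, 0 ≤ B m i)
    (h₁ : ∀ m i L : ℕ, 1 ≤ m → m * (m + 2 ^ i) ≤ X → L ≤ 2 ^ i →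
      ‖∑ r ∈ range L, bt σ b T y ω m (m + 2 ^ i + r)‖ ≤ B m i)
    (h₂ : ∀ m i L : ℕ, 1 ≤ m → m * (m + 2 ^ i) ≤ X → L ≤ 2 ^ i →
      ‖∑ r ∈ range L, bt σ b T (-y) (-ω) m (m + 2 ^ i + r)‖ ≤ B m i) :
    ‖∑ p ∈ (PS X).filter (fun p => p.1 ≠ p.2), bt σ b T y ω p.1 p.2‖ ≤
      2 * ∑ m ∈ Icc 1 X, ∑ i ∈ (range (X + 1)).filter (fun i => m * (m + 2 ^ i) ≤ X), B m i := by
  classical
  have hsplit : ∑ p ∈ (PS X).filter (fun p => p.1 ≠ p.2), bt σ b T y ω p.1 p.2 =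
      ∑ p ∈ (PS X).filter (fun p => p.1 < p.2), bt σ b T y ω p.1 p.2 +
      ∑ p ∈ (PS X).filter (fun p => p.2 < p.1), bt σ b T y ω p.1 p.2 := by
    rw [← Finset.sum_union]
    · congr 1
      ext p
      simp only [mem_filter, mem_union]
      constructor
      · rintro ⟨h1, h2⟩
        rcases lt_or_gt_of_ne h2 with h | h
        · exact Or.inl ⟨h1, h⟩
        · exact Or.inr ⟨h1, h⟩
      · rintro (⟨h1, h2⟩ | ⟨h1, h2⟩)
        · exact ⟨h1, by omega⟩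
        · exact ⟨h1, by omega⟩
    · rw [Finset.disjoint_filter]
      intro p _ h
      omega
  have hswap : ∑ p ∈ (PS X).filter (fun p => p.2 < p.1), bt σ b T y ω p.1 p.2 =
      (starRingEnd ℂ) (∑ p ∈ (PS X).filter (fun p => p.1 < p.2), bt σ b T (-y) (-ω) p.1 p.2) := by
    rw [map_sum]
    refine Finset.sum_bij' (fun p _ => (p.2, p.1)) (fun p _ => (p.2, p.1)) ?_ ?_ ?_ ?_ ?_
    · intro p hp
      simp only [PS, mem_filter, mem_product, mem_Icc] at hp ⊢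
      obtain ⟨⟨⟨⟨h1, h2⟩, h3, h4⟩, h5⟩, h6⟩ := hp
      exact ⟨⟨⟨⟨h3, h4⟩, h1, h2⟩, by rw [mul_comm]; exact h5⟩, h6⟩
    · intro p hp
      simp only [PS, mem_filter, mem_product, mem_Icc] at hp ⊢
      obtain ⟨⟨⟨⟨h1, h2⟩, h3, h4⟩, h5⟩, h6⟩ := hp
      exact ⟨⟨⟨⟨h3, h4⟩, h1, h2⟩, by rw [mul_comm]; exact h5⟩, h6⟩
    · intro p _; rfl
    · intro p _; rfl
    · intro p _
      rw [bt_conj]
      simp
  rw [hsplit, hswap, two_mul]
  refine (norm_add_le _ _).trans (add_le_add ?_ ?_)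
  · exact upper (fun m n => bt σ b T y ω m n) B X h₁ hB0
  · rw [RCLike.norm_conj]
    exact upper (fun m n => bt σ b T (-y) (-ω) m n) B X h₂ hB0

end Pool.Agent.Helper3K.GDS
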